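import Pool.Agent.MP_3ee8cb_gt.DZF.Base
import Pool.Agent.MP_3ee8cb_gt.DL.Spec
import Pool.Agent.MP_3ee8cb_gt.DZ.RMOV
import Pool.Agent.MP_3ee8cb_gt.DNFL.HFLP
import Pool.Agent.MP_3ee8cb_gt.SLN.Z

/-! Finiteness: scaling and the statement layer. -/

namespace Pool.Agent.MP_3ee8cb_gt.DZF

open DN (Dim dm Pin Iso D2)

section

open CR LV DZ Set Real D3IN.Sca

section

variable {n : ℕ} {a : ℝ} {g h : Met n} {Γ Λ : Type} [Group Γ] [MulAction Γ (E n)] [Group Λ]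
  [MulAction Λ (E n)] {Φ : ℝ → UT g → UT g} {Ψ : ℝ → UT h → UT h} {ρ : Γ ≃* Λ}
  {F : UT g ≃ₜ UT h}

theorem seg_sc (ha : 0 < a) (g : Met n) (x y : E n) :
    seg (scale_m a⁻¹ g) x y = a * seg g x y := by
  unfold seg
  rw [← intervalIntegral.integral_const_mul]
  refine intervalIntegral.integral_congr fun t _ => ?_
  simp only [app]
  rw [sqrt_mul (sq_nonneg a), sqrt_sq ha.le]

theorem dd_sc (ha : 0 < a) (d : DBP g) (d' : DBP (scale_m a⁻¹ g)) (x y : E n) :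
    dd (scale_m a⁻¹ g) x y = a * dd g x y := by
  have k1 := d.test (fun z => dd (scale_m a⁻¹ g) x z / a) (fun u v => by
    rw [← sub_div, div_le_iff₀' ha, ← seg_sc ha]
    linarith [d'.tri x u v, d'.le_seg u v]) x y
  have k2 := d'.test (fun z => a * dd g x z) (fun u v => by
    rw [seg_sc ha, ← mul_sub]
    exact mul_le_mul_of_nonneg_left (by linarith [d.tri x u v, d.le_seg u v]) ha.le) x y
  simp only [d.refl, d'.refl, zero_div, mul_zero, sub_zero, div_le_iff₀' ha] at k1 k2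
  exact k1.antisymm k2

theorem qp_sc (hn : 0 < n) (hc : a ≠ 0) (q : QP g Γ Φ) : QP (scale_m a g) Γ (scale_f hc Φ) :=
  all_qp hn (scale_riem hc q.rp.riem) (scale_deck _ q.rp.deck) (scale_flow hc q.rp.flow)

theorem wd_sc (hn : 0 < n) (ha : 0 < a) (hc : a⁻¹ ≠ 0) (q : QP h Λ Ψ) {r : ℝ} :
    Wd (scale_m a⁻¹ g) (scale_m a⁻¹ h) (scale_f hc Ψ) (sc hc F) (a * r) ↔ Wd g h Ψ F r := by
  have k : ∀ p y, |bus (scale_m a⁻¹ h) (scale_f hc Ψ) (sc hc F p) y| ≤ a * r ↔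
      |bus h Ψ (F (scale_s hc g p)) y| ≤ r := fun p y => by
    have e : bus (scale_m a⁻¹ h) (scale_f hc Ψ) (sc hc F p) y =
        a * bus h Ψ (F (scale_s hc g p)) y := by
      unfold bus
      rw [mul_iInf_of_nonneg ha.le]
      refine (iInf_congr fun t => ?_).trans ((mul_left_surjective₀ hc).iInf_comp _)
      rw [dd_sc ha q.rp.db (qp_sc hn hc q).rp.db, mul_sub, mul_inv_cancel_left₀ ha.ne']
      simp only [scale_f, D3IN.Sca.sc, Homeomorph.trans_apply, Homeomorph.apply_symm_apply]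
      rfl
    rw [e, abs_mul, abs_of_pos ha, mul_le_mul_iff_right₀ ha]
  refine forall_congr' fun x => exists_congr fun y => ⟨fun H p hp => ?_,
    fun H p hp => (k p y).2 (H _ hp)⟩
  have := (k _ y).1 (H ((scale_s hc g).symm p) hp)
  rwa [Homeomorph.apply_symm_apply] at this

theorem fp_sc (hc : a ≠ 0) (fp : ∀ p, F (ng p) = ng (F p)) (p : UT (scale_m a g)) :
    sc hc F (ng p) = ng (sc hc F p) := by
  have e : scale_s hc g (ng p) = ng (scale_s hc g p) := Subtype.ext (Prod.ext rfl (smul_neg _ _))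
  refine Subtype.ext ?_
  rw [sc_val, e, fp]
  exact Prod.ext rfl (smul_neg _ _)

theorem fp_symm (fp : ∀ p, F (ng p) = ng (F p)) (w : UT h) : F.symm (ng w) = ng (F.symm w) :=
  F.injective (by rw [fp, F.apply_symm_apply, F.apply_symm_apply])

theorem mk (qg : QP g Γ Φ) (qh : QP h Λ Ψ) (c : CJ g h Φ Ψ ρ F) (hc : TB.CurvLe h 1)
    (fp : ∀ p, F (ng p) = ng (F p)) : NY h Λ Ψ ∧ NX g h Φ Ψ ρ F := by
  obtain ⟨mh, i2, t, bh, l, u, mg, tp⟩ := RMOV.kit qg qh c hc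
  exact ⟨⟨qh, mh, i2, t, bh, l⟩, qg, mg, bp n g Γ Φ qg mg, eqv n g Γ Φ qg mg, c, fp, u, tp⟩

/-- A source with curvature at most minus one has width at most `log 2`. -/
theorem sym (Y : NY g Γ Φ) {σ : Λ ≃* Γ} (X : NX h g Ψ Φ σ F.symm) : Wd g h Ψ F (log 2) := by
  intro x
  obtain ⟨p₀, hp, -⟩ := Y.q.rp.hr x x
  refine ⟨(F p₀).1.1, fun p e => ?_⟩
  obtain ⟨w, k, hw, hk⟩ := DZM.mov1 X.q Y.q X.mn Y.bp Y.th Y.lb X.uq X.cj.flow (F p) (F p₀).1.1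
  have c := H69.ctr X.q Y.q X.mn Y.mn Y.i2 Y.th Y.bp X.uq X.cj.flow X.fp
  have c1 := c w (F p₀) hw
  have c2 := c (ng w) (F p₀) hw
  have c3 := hk p.1.1
  rw [F.symm_apply_apply, hp, ← e] at c1 c2
  rw [F.symm_apply_apply, self0 Y.q Y.bp] at c3
  rw [X.fp] at c2
  rw [← hw, tr Y X hk]
  exact abs_le.2 ⟨by linarith, by linarith [Y.bp.opp (F.symm w) p.1.1]⟩

end

variable [Dim]

theorem pin_sc {a k : ℝ} {h : Met dm} {C : TB.Chr dm} (K : Pin h C (a ^ 2) (k * a ^ 2)) :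
    Pin (scale_m a⁻¹ h) C 1 k := fun x u v => by
  obtain ⟨h1, h2⟩ := K x u v
  simp only [app]
  exact ⟨by nlinarith [mul_le_mul_of_nonneg_left h1 (sq_nonneg a)],
    by nlinarith [mul_le_mul_of_nonneg_left h2 (sq_nonneg a)]⟩

theorem cv_sc {a k : ℝ} {h : Met dm} {C : TB.Chr dm} (c : TB.IsChr h C)
    (K : Pin h C (a ^ 2) (k * a ^ 2)) : TB.CurvLe (scale_m a⁻¹ h) 1 :=
  ⟨C, chr _ c, fun x u v => by simpa using (pin_sc K x u v).2⟩

theorem mainF {k r : ℝ} (hr : 0 < r) (core : DL.Core k r) {ι : Type} {o : ι} {G : ι → Met dm}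
    {C : ι → TB.Chr dm} {Δ : ι → Type} [∀ i, Group (Δ i)] [∀ i, MulAction (Δ i) (E dm)]
    {Θ : ∀ i, ℝ → UT (G i) → UT (G i)} {σ : ∀ i, Δ i ≃* Δ o} {T : ∀ i, UT (G i) ≃ₜ UT (G o)}
    {a : ι → ℝ} (ha : ∀ i, 0 < a i) (q : ∀ i, QP (G i) (Δ i) (Θ i))
    (c : ∀ i, TB.IsChr (G i) (C i)) (d : ∀ i, D2 (Δ i))
    (K : ∀ i, Pin (G i) (C i) (a i ^ 2) (k * a i ^ 2))
    (j0 : ∀ i, CJ (G i) (G o) (Θ i) (Θ o) (σ i) (T i)) (fp : ∀ i p, T i (ng p) = ng (T i p)) :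
    ∃ s : Finset ι, ∀ i, ∃ j ∈ s, Iso (G i) (G j) ((σ i).trans (σ j).symm) := by
  have n0 : 0 < dm := Nat.succ_pos _
  have hc : ∀ i, (a i)⁻¹ ≠ 0 := fun i => inv_ne_zero (ha i).ne'
  have j1 : ∀ i j, CJ (G i) (G j) (Θ i) (Θ j) ((σ i).trans (σ j).symm) ((T i).trans (T j).symm) :=
    fun i j => cj_trans (j0 i) (SLN.link_symm (q j).rp.deck (j0 j))
  have f1 : ∀ i j p, ((T i).trans (T j).symm) (ng p) = ng (((T i).trans (T j).symm) p) :=
    fun i j p => by simp only [Homeomorph.trans_apply, fp, fp_symm (fp j)]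
  have L : ∀ i j, Wd (G i) (G j) (Θ j) ((T i).trans (T j).symm) (r / a j) →
      Iso (G i) (G j) ((σ i).trans (σ j).symm) := fun i j H => by
    rw [← wd_sc n0 (ha j) (hc j) (q j), mul_div_cancel₀ _ (ha j).ne'] at H
    obtain ⟨f, e1, e2, e3, e4⟩ := core _ _ (C i) (C j) _ _ _ _ _ _ (qp_sc n0 (hc j) (q i))
      (qp_sc n0 (hc j) (q j)) (chr _ (c i)) (chr _ (c j)) (d i) (d j) (cj (hc j) (j1 i j))
      (pin_sc (K j)) (fp_sc (hc j) (f1 i j)) H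
    refine ⟨f, e1, e2, fun x u v => ?_, e4⟩
    have e5 := e3 x u v
    rw [app, app] at e5
    exact mul_left_cancel₀ (pow_ne_zero 2 (ha j).ne') e5
  have mono : ∀ i j s, s ≤ r / a j → Wd (G i) (G j) (Θ j) ((T i).trans (T j).symm) s →
      Iso (G i) (G j) ((σ i).trans (σ j).symm) := fun i j s hs H => L i j fun x => by
    obtain ⟨y, H⟩ := H x
    exact ⟨y, fun p hp => (H p hp).trans hs⟩
  have l2 := div_pos hr (log_pos one_lt_two)
  have M := fun i => mk (qp_sc n0 (hc o) (q i)) (qp_sc n0 (hc o) (q o)) (cj (hc o) (j0 i))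
    (cv_sc (c o) (K o)) (fp_sc (hc o) (fp i))
  obtain ⟨τ, _, S, W⟩ := pig (M o).1 (fun i => (M i).2)
    (fun i => SLN.link_symm (M i).2.q.rp.deck (M i).2.cj)
    (mul_pos (ha o) (mul_pos l2 (div_pos hr (ha o))))
  obtain ⟨s, s1, s2, s3⟩ := (toFinite (S '' {i | r / a o ≤ log 2 / a i})).exists_subset_finite_image_eq
    Subset.rfl
  refine ⟨(s2.insert o).toFinset, fun i => ?_⟩
  simp only [Finite.mem_toFinset]
  rcases le_total (log 2 / a i) (r / a o) with hb | hb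
  · refine ⟨o, mem_insert _ _, mono i o _ hb ?_⟩
    rw [← wd_sc n0 (ha i) (hc i) (q o), mul_div_cancel₀ _ (ha i).ne']
    obtain ⟨Y, X⟩ := mk (qp_sc n0 (hc i) (q o)) (qp_sc n0 (hc i) (q i))
      (SLN.link_symm (qp_sc n0 (hc i) (q i)).rp.deck (cj (hc i) (j1 i o))) (cv_sc (c i) (K i))
      (fp_symm (fp_sc (hc i) (f1 i o)))
    exact sym Y X
  obtain ⟨j, hj, e⟩ : S i ∈ S '' s := s3 ▸ mem_image_of_mem S hb
  refine ⟨j, mem_insert_of_mem _ hj, mono i j (r / log 2 * (r / a o)) ?_ ?_⟩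
  · refine (mul_le_mul_of_nonneg_left (s1 hj) l2.le).trans_eq ?_
    field_simp [(log_pos one_lt_two).ne']
  · rw [← wd_sc n0 (ha o) (hc o) (q j)]
    have e' : sc (hc o) ((T i).trans (T j).symm) =
        (sc (hc o) (T i)).trans (sc (hc o) (T j)).symm := Homeomorph.ext fun p => by
      simp only [D3IN.Sca.sc, Homeomorph.trans_apply, Homeomorph.symm_trans_apply,
        Homeomorph.symm_symm, Homeomorph.apply_symm_apply]
    rw [e']
    exact W i j e.symm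

end

open Pool.Agent.MP_3ee8cb_gt.SL

theorem finF [Dim] (core : ∀ hi : ℝ, 1 ≤ hi → ∃ r, 0 < r ∧ DL.Core hi r) (k : ℝ) (ι : Type)
    (o : ι) (g : ι → Met dm) (Γ : ι → Type) [∀ i, Group (Γ i)] [∀ i, MulAction (Γ i) (E dm)]
    (Φ : ∀ i, ℝ → UT (g i) → UT (g i)) (f : ∀ i, UM (g i) (Γ i) ≃ₜ UM (g o) (Γ o))
    (hg : ∀ i, Riem (g i)) (dg : ∀ i, Deck (g i) (Γ i)) (sg : ∀ i, SL3.Smooth (g i) (Γ i))
    (fg : ∀ i, IsFlow (g i) (Φ i)) (hf : ∀ i, Conj (Φ i) (Φ o) (f i))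
    (hp : ∀ i, SL3.Pinched (g i) k) :
    ∃ s : Finset ι, ∀ i, ∃ j ∈ s, SL3.Isometric (g i) (g j) (Γ i) (Γ j) := by
  choose G hG rG using fun i => link_riem (hg i)
  obtain rfl : g = fun i => pl (G i) := funext hG
  have n0 : 3 ≤ dm := Nat.le_add_left 3 _
  have q := fun i => LV.all_qp (by omega) (rG i) (link_deck (dg i)) (link_flow (rG i) (fg i))
  choose σ T₀ j0 _ using fun i => LV.lift2 dm (G i) (G o) (Γ i) (Γ o) (Φ i) (Φ o) (f i) n0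
    (q i).rp (q o).rp (hf i)
  choose a b ha hb C c K using fun i => SLN.link_pin (rG i) (hp i)
  choose _ t T _ j1 fp using fun i => DNFL.flp _ _ (C i) (C o) _ _ _ _ _ _ (q i) (q o) (c i) (c o)
    ((sg i).act 2) ((sg o).act 2) (j0 i) (a o) (ha o) ⟨C o, c o, fun x u v => (K o x u v).1⟩
  obtain ⟨r, hr, core⟩ := core (max k 1) (le_max_right _ _)
  obtain ⟨s, hs⟩ := mainF hr core ha q c (fun i => (sg i).act 2)
    (fun i x u v => ⟨le_trans (mul_le_mul_of_nonneg_right (neg_le_neg ((hb i).le.trans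
      (mul_le_mul_of_nonneg_right (le_max_left _ _) (sq_nonneg _))))
      (sub_nonneg.2 (TB.mod_cs (rG i) x u v))) (K i x u v).2, (K i x u v).1⟩) j1 fp
  refine ⟨s, fun i => ?_⟩
  obtain ⟨j, hj, S, hS⟩ := hs i
  exact ⟨j, hj, S, _, hS⟩

/-- Finiteness, every dimension. -/
theorem allF (core : ∀ [Dim] (hi : ℝ), 1 ≤ hi → ∃ r, 0 < r ∧ DL.Core hi r) (n : ℕ) (hn : 3 ≤ n)
    (k : ℝ) (ι : Type) (o : ι) (g : ι → Met n) (Γ : ι → Type) [∀ i, Group (Γ i)]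
    [∀ i, MulAction (Γ i) (E n)] (Φ : ∀ i, ℝ → UT (g i) → UT (g i))
    (f : ∀ i, UM (g i) (Γ i) ≃ₜ UM (g o) (Γ o))
    (hg : ∀ i, Riem (g i)) (dg : ∀ i, Deck (g i) (Γ i)) (sg : ∀ i, SL3.Smooth (g i) (Γ i))
    (fg : ∀ i, IsFlow (g i) (Φ i)) (hf : ∀ i, Conj (Φ i) (Φ o) (f i))
    (hp : ∀ i, SL3.Pinched (g i) k) :
    ∃ s : Finset ι, ∀ i, ∃ j ∈ s, SL3.Isometric (g i) (g j) (Γ i) (Γ j) := by
  obtain ⟨j, rfl⟩ : ∃ j, n = j + 3 := ⟨n - 3, by omega⟩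
  exact @finF ⟨j⟩ (@core ⟨j⟩) k ι o g Γ _ _ Φ f hg dg sg fg hf hp

end Pool.Agent.MP_3ee8cb_gt.DZF
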