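import Pool.Agent.MP_3ee8cb_gt.DL.Top
import Pool.Agent.MP_3ee8cb_gt.DL.RDAN
import Pool.Agent.MP_3ee8cb_gt.DL.REND1
import Pool.Agent.MP_3ee8cb_gt.DL.REQV67
import Pool.Agent.MP_3ee8cb_gt.DL.RJA
import Pool.Agent.MP_3ee8cb_gt.DL.RJB
import Pool.Agent.MP_3ee8cb_gt.DL.RLB
import Pool.Agent.MP_3ee8cb_gt.DL.RLZ
import Pool.Agent.MP_3ee8cb_gt.DL.RMIN
import Pool.Agent.MP_3ee8cb_gt.DL.RNEAR
import Pool.Agent.MP_3ee8cb_gt.DL.RSUP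
import Pool.Agent.MP_3ee8cb_gt.DL.RZERO
import Pool.Agent.MP_3ee8cb_gt.DZ.All
import Pool.Agent.MP_3ee8cb_gt.DZF.Fin

/-! Rigidity when all fronts are small. -/

namespace Pool.Agent.MP_3ee8cb_gt.DZF

open DN DL in
theorem core [DN.Dim] (hi : ℝ) (h : 1 ≤ hi) : ∃ r, 0 < r ∧ DL.Core hi r :=
  core_of sJAC sFRM DNFL.had sACT DZ.sMS DZ.sB1 DZ.sBG DZ.xw DZ.sASY DZ.sBC DZ.sEXA DZ.sMOV
    DZ.sLIP DZ.sGR DZ.sBF DZ.sONTO DZ.RVOL.veq DZ.RVOL.area DZ.sVOL DZ.sEND2 sLB sPOS sDAN sMIN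
    sLZ sNEAR sSUP sZERO sFL sJA sJB sEND1 eqv67 hi (zero_le_one.trans h)

open SL SL3 in
/-- A conjugacy class of geodesic flows holds finitely many pinched closed manifolds. -/
theorem finiteness (n : ℕ) (hn : 3 ≤ n) (k : ℝ) (ι : Type) (o : ι) (g : ι → Met n) (Γ : ι → Type)
    [∀ i, Group (Γ i)] [∀ i, MulAction (Γ i) (E n)] (Φ : ∀ i, ℝ → UT (g i) → UT (g i))
    (f : ∀ i, UM (g i) (Γ i) ≃ₜ UM (g o) (Γ o)) (hg : ∀ i, Riem (g i))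
    (dg : ∀ i, Deck (g i) (Γ i)) (sg : ∀ i, Smooth (g i) (Γ i)) (fg : ∀ i, IsFlow (g i) (Φ i))
    (hf : ∀ i, Conj (Φ i) (Φ o) (f i)) (hp : ∀ i, Pinched (g i) k) :
    ∃ s : Finset ι, ∀ i, ∃ j ∈ s, Isometric (g i) (g j) (Γ i) (Γ j) :=
  allF core n hn k ι o g Γ Φ f hg dg sg fg hf hp

end Pool.Agent.MP_3ee8cb_gt.DZF
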