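import Pool.Agent.MP_3ee8cb_gt.DZ.H69Gr
import Pool.Agent.MP_3ee8cb_gt.DZ.H77Exa
import Pool.Agent.MP_3ee8cb_gt.DZM.Base
import Pool.Agent.MP_3ee8cb_gt.TB.RMOD
import Pool.Agent.MP_3ee8cb_gt.CR.RUC

/-! A pigeonhole on Busemann functions. -/

namespace Pool.Agent.MP_3ee8cb_gt.DZF

open CR LV DZ Set Filter Topology Real

variable {n : ℕ}

/-- Every fibre has a point at which all its Busemann functions are at most `r`. -/
def Wd (g h : Met n) (Ψ : ℝ → UT h → UT h) (F : UT g → UT h) (r : ℝ) : Prop :=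
  ∀ x, ∃ y, ∀ p : UT g, p.1.1 = x → |bus h Ψ (F p) y| ≤ r

/-- The facts on a manifold with curvature at most minus one. -/
structure NY (h : Met n) (Λ : Type) [Group Λ] [MulAction Λ (E n)] (Ψ : ℝ → UT h → UT h) :
    Prop where
  q : QP h Λ Ψ
  mn : MinP h Ψ
  i2 : I2P h Ψ 1
  th : ThP h Ψ 1
  bp : BP h Ψ
  lb : LbP h Ψ 1

/-- The facts on a conjugacy that commutes with the flip. -/
structure NX (g h : Met n) {Γ Λ : Type} [Group Γ] [Group Λ] [MulAction Γ (E n)]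
    [MulAction Λ (E n)] (Φ : ℝ → UT g → UT g) (Ψ : ℝ → UT h → UT h) (ρ : Γ ≃* Λ)
    (F : UT g ≃ₜ UT h) : Prop where
  q : QP g Γ Φ
  mn : MinP g Φ
  bp : BP g Φ
  ev : EqvP g Γ Φ
  cj : CJ g h Φ Ψ ρ F
  fp : ∀ p, F (ng p) = ng (F p)
  uq : UQ g h Ψ F
  tp : TP g h Φ Ψ F

theorem alg {C S a a' θ : ℝ} (e : C ^ 2 = S ^ 2 + 1) (hS : 0 ≤ S) (hC : S ≤ C) (ha : a ^ 2 ≤ 1)
    (ha' : a' ^ 2 ≤ 1) (hθ : 0 ≤ θ) (hd : (a - a') ^ 2 ≤ (2 * θ) ^ 2) :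
    1 - θ ≤ (C - a * S) * (C + a' * S) := by
  obtain ⟨a1, a2⟩ := abs_le.1 (sq_le_one_iff_abs_le_one a |>.1 ha)
  obtain ⟨b1, b2⟩ := abs_le.1 (sq_le_one_iff_abs_le_one a' |>.1 ha')
  obtain ⟨-, c2⟩ := abs_le_of_sq_le_sq' hd (by linarith)
  have k1 : 2 * (S * (C - S)) ≤ 1 := by nlinarith [sq_nonneg (C - S)]
  have k2 : 0 ≤ S * (C - S) := mul_nonneg hS (sub_nonneg.2 hC)
  have k3 : 0 ≤ (1 - a) * (1 + a') * S ^ 2 :=
    mul_nonneg (mul_nonneg (by linarith) (by linarith)) (sq_nonneg S)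
  have k4 : (a - a') * (S * (C - S)) ≤ 2 * θ * (S * (C - S)) :=
    mul_le_mul_of_nonneg_right c2 k2
  nlinarith [mul_le_mul_of_nonneg_left k1 hθ]

variable {g g' h : Met n} {Γ Γ' Λ : Type} [Group Γ] [MulAction Γ (E n)] [Group Γ']
  [MulAction Γ' (E n)] [Group Λ] [MulAction Λ (E n)] {Φ : ℝ → UT g → UT g}
  {Φ' : ℝ → UT g' → UT g'} {Ψ : ℝ → UT h → UT h} {ρ : Γ ≃* Λ} {ρ' : Γ' ≃* Λ}
  {F : UT g ≃ₜ UT h} {F' : UT g' ≃ₜ UT h}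

theorem lb2 (Y : NY h Λ Ψ) (y z : E n) : ∃ s : E n, h y s s = 1 ∧ ∀ u : UT h, u.1.1 = y →
    cosh (dd h y z) - h y u.1.2 s * sinh (dd h y z) ≤ exp (bus h Ψ u z) ∧
    cosh (dd h y z) + h y u.1.2 s * sinh (dd h y z) ≤ exp (bus h Ψ (ng u) z) := by
  obtain ⟨s, s0, s1⟩ := Y.q.rp.hr y z
  refine ⟨s.1.2, s0 ▸ s.2, fun u hu => ?_⟩
  have k1 := Y.lb u s (hu.trans s0.symm) _ (Y.q.rp.db.nonneg y z)
  have k2 := Y.lb (ng u) s (hu.trans s0.symm) _ (Y.q.rp.db.nonneg y z)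
  simp only [one_mul, s1, ng, map_neg, neg_apply, hu] at k1 k2
  exact ⟨k1, by simpa only [ng, neg_mul, sub_neg_eq_add, hu] using k2⟩

/-- Almost opposite vectors have an almost nonnegative sum of Busemann functions. -/
theorem hyp (Y : NY h Λ Ψ) {u u' : UT h} (e : u.1.1 = u'.1.1) {θ : ℝ} (hθ : 0 ≤ θ)
    (hc : 1 - h u.1.1 u.1.2 u'.1.2 ≤ 2 * θ ^ 2) (z : E n) :
    1 - θ ≤ exp (bus h Ψ u z + bus h Ψ (ng u') z) := by
  have r := Y.q.rp.riem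
  obtain ⟨s, s1, H⟩ := lb2 Y u.1.1 z
  have L0 := Y.q.rp.db.nonneg u.1.1 z
  have k1 := (H u rfl).1
  have k2 := (H u' e.symm).2
  generalize dd h u.1.1 z = L at L0 k1 k2
  have c1 := TB.mod_cs r u.1.1 u.1.2 s
  have c2 := TB.mod_cs r u.1.1 u'.1.2 s
  have c3 := TB.mod_cs r u.1.1 (u.1.2 - u'.1.2) s
  have u2 := u'.2
  rw [← e] at u2
  rw [u.2, s1, mul_one] at c1
  rw [u2, s1, mul_one] at c2
  rw [H77.sq_sub r e, s1, mul_one, map_sub, sub_apply] at c3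
  have S0 := sinh_nonneg_iff.2 L0
  have SC := (sinh_lt_cosh L).le
  refine (alg (cosh_sq L) S0 SC c1 c2 hθ (by linarith)).trans ?_
  rw [exp_add]
  refine mul_le_mul k1 k2 ?_ (exp_pos _).le
  have := (abs_le.1 (sq_le_one_iff_abs_le_one _ |>.1 c2)).1
  nlinarith

theorem self0 (q : QP h Λ Ψ) (b : BP h Ψ) (w : UT h) : bus h Ψ w w.1.1 = 0 := by
  have := b.self w 0
  rwa [q.rp.flow.zero, neg_zero] at this

/-- Equicontinuity along the fibres, with a universal modulus. -/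
theorem eqc (Y : NY h Λ Ψ) (X : NX g h Φ Ψ ρ F) {ε η : ℝ} (hε : 0 < ε)
    (hη : exp (2 * η) = 1 + 2 * (1 - exp (-ε)) ^ 2) {p q : UT g} (e : p.1.1 = q.1.1)
    (H : bus h Ψ (F p) (Ψ 1 (F q)).1.1 ≤ bus h Ψ (F p) (F q).1.1 - 1 + 2 * η) :
    bus h Ψ (F p) (F q).1.1 ≤ 2 * ε := by
  obtain ⟨ν, n1, -, -, n2⟩ := H77.exa Y.q one_pos Y.mn Y.th Y.bp (F p) (F q).1.1
  obtain ⟨z, hz⟩ := H69.sum_le X.q Y.q X.mn Y.mn Y.i2 Y.th Y.bp X.uq X.cj.flow X.fp p (ng q) e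
    ε hε
  have k := Y.lb ν (F q) n1 1 zero_le_one
  simp only [one_mul] at k
  have c := TB.mod_cs Y.q.rp.riem ν.1.1 ν.1.2 (F q).1.2
  have u2 := (F q).2
  rw [← n1] at u2
  rw [ν.2, u2, mul_one] at c
  have c' := (abs_le.1 (sq_le_one_iff_abs_le_one _ |>.1 c)).2
  have k1 : exp (bus h Ψ ν (Ψ 1 (F q)).1.1) ≤ exp (-1 + 2 * η) :=
    exp_le_exp.2 (by linarith [n2 (Ψ 1 (F q)).1.1])
  rw [exp_add, hη] at k1
  have k2 := cosh_sub_sinh 1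
  have k3 : exp (-1) ≤ sinh 1 :=
    (exp_le_one_iff.2 (by norm_num)).trans (self_le_sinh_iff.2 zero_le_one)
  have θ0 : 0 ≤ 1 - exp (-ε) := sub_nonneg.2 (exp_le_one_iff.2 (by linarith))
  have k4 := hyp Y n1 θ0 (le_of_mul_le_mul_left (a := exp (-1)) (by
    nlinarith [mul_le_mul_of_nonneg_left k3 (sub_nonneg.2 c')]) (exp_pos _)) z
  rw [sub_sub_cancel, exp_le_exp] at k4
  rw [X.fp, n2 z] at hz
  linarith

theorem small (Y : NY h Λ Ψ) (X : NX g h Φ Ψ ρ F) {ε η c : ℝ} (hε : 0 < ε)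
    (hη : exp (2 * η) = 1 + 2 * (1 - exp (-ε)) ^ 2) {p q : UT g} (e : p.1.1 = q.1.1)
    (H : ∀ v, v = p ∨ v = q → ∀ t ∈ Icc (0 : ℝ) 1,
      |bus h Ψ (F q) (Ψ t (F v)).1.1 - bus h Ψ (F p) (Ψ t (F v)).1.1 + c| ≤ η) :
    |c| ≤ 2 * ε + η := by
  have a0 := abs_le.1 (H p (.inl rfl) 0 ⟨le_rfl, zero_le_one⟩)
  have a1 := abs_le.1 (H p (.inl rfl) 1 ⟨zero_le_one, le_rfl⟩)
  have b0 := abs_le.1 (H q (.inr rfl) 0 ⟨le_rfl, zero_le_one⟩)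
  have b1 := abs_le.1 (H q (.inr rfl) 1 ⟨zero_le_one, le_rfl⟩)
  rw [Y.bp.self] at a0 a1 b0 b1
  rw [Y.q.rp.flow.zero] at a0 b0
  have k1 := eqc Y X hε hη e (by linarith [b0.1, b1.2])
  have k2 := eqc Y X hε hη e.symm (by linarith [a0.1, a1.2])
  exact abs_le.2 ⟨by linarith [a0.1], by linarith [b0.2]⟩

/-- The constant is a value of a Busemann function of the source. -/
theorem tr (Y : NY h Λ Ψ) (X : NX g h Φ Ψ ρ F) {p p' : UT g} {k : ℝ}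
    (hk : ∀ z, bus h Ψ (F p') z = bus h Ψ (F p) z + k) : bus g Φ p p'.1.1 = -k := by
  have h1 := DZM.asy Y.q Y.bp Y.th Y.lb (w := F p) (u := F p') (C := -k) fun s _ => by
    have := hk (Ψ s (F p')).1.1
    rw [Y.bp.self] at this
    linarith
  have h2 : bus h Ψ (F p) (F p').1.1 = -k := by
    have h3 := hk (F p').1.1
    rw [self0 Y.q Y.bp] at h3
    linarith
  rw [h2, ← X.tp.flow] at h1
  rw [X.bp.top _ _ (X.tp.top _ _ h1), X.bp.shift, self0 X.q X.bp, zero_add]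

/-- The feet of the image of a fibre are close to each other. -/
theorem near (Y : NY h Λ Ψ) (X : NX g h Φ Ψ ρ F) {p q : UT g} (e : p.1.1 = q.1.1) :
    dd h (F p).1.1 (F q).1.1 ≤ 3 := by
  have c := H69.ctr X.q Y.q X.mn Y.mn Y.i2 Y.th Y.bp X.uq X.cj.flow X.fp
  have c1 := exp_le_exp.2 (c p q e)
  have c2 := exp_le_exp.2 (c (ng p) q e)
  rw [exp_log two_pos] at c1 c2
  rw [X.fp] at c2
  obtain ⟨s, -, H⟩ := lb2 Y (F p).1.1 (F q).1.1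
  obtain ⟨k1, k2⟩ := H (F p) rfl
  generalize dd h (F p).1.1 (F q).1.1 = L at k1 k2
  have := cosh_eq L
  linarith [add_one_le_exp L, exp_pos (-L)]

theorem cj_trans {σ : Λ ≃* Γ'} {G : UT h ≃ₜ UT g'} (c : CJ g h Φ Ψ ρ F) (c' : CJ h g' Ψ Φ' σ G) :
    CJ g g' Φ Φ' (ρ.trans σ) (F.trans G) :=
  ⟨fun t p => by simp only [Homeomorph.trans_apply, c.flow, c'.flow],
    fun γ p q e => c'.equi _ _ _ (c.equi γ p q e)⟩

theorem wd_of (d : Deck g Γ) (i : InvP h Λ) (ev : EqvP h Λ Ψ) (c : CJ g h Φ Ψ ρ F) {r : ℝ}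
    (H : ∀ x : E n, ∃ (γ : Γ) (y : E n), ∀ p : UT g, p.1.1 = γ • x → |bus h Ψ (F p) y| ≤ r) :
    Wd g h Ψ F r := by
  intro x
  obtain ⟨γ, y, H⟩ := H x
  refine ⟨(ρ γ)⁻¹ • y, fun p hp => ?_⟩
  have k : bus h Ψ (F (uc_mv d γ p)) (ρ γ • (ρ γ)⁻¹ • y) = bus h Ψ (F p) ((ρ γ)⁻¹ • y) := by
    unfold bus
    refine iInf_congr fun t => ?_
    rw [ev (ρ γ) _ _ (c.equi γ p (uc_mv d γ p) rfl) t]
    exact congrArg (· - t) (i (ρ γ) _ (Ψ t (F p)).1.1)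
  rw [← k, smul_inv_smul]
  exact H _ (congrArg (γ • ·) hp)

/-- Two fibres whose Busemann functions are close on a ball. -/
theorem pair (Y : NY h Λ Ψ) (X' : NX g' h Φ' Ψ ρ' F') {ε η R : ℝ} (hε : 0 < ε)
    (hη : exp (2 * η) = 1 + 2 * (1 - exp (-ε)) ^ 2) {o : E n} {w : UT h} {q q₀ : UT g'}
    (e : q.1.1 = q₀.1.1) (h0 : dd h o (F' q₀).1.1 ≤ R)
    (H : ∀ z, dd h o z ≤ R + 4 → |bus h Ψ (F' q) z - bus h Ψ w z| ≤ η) :
    |bus g' Φ' (F'.symm w) q₀.1.1| ≤ 2 * ε + η := by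
  obtain ⟨p, k, hp, hk⟩ := DZM.mov1 X'.q Y.q X'.mn Y.bp Y.th Y.lb X'.uq X'.cj.flow (F'.symm w)
    q₀.1.1
  rw [← hp, tr Y X' hk, abs_neg]
  refine small Y X' hε hη (hp.trans e.symm) fun v hv t ht => ?_
  have a1 : dd h (F' q₀).1.1 (F' v).1.1 ≤ 3 := near Y X' (by
    rcases hv with rfl | rfl
    exacts [hp.symm, e.symm])
  have a2 := Y.q.rp.fl.lip (F' v) 0 t
  rw [Y.q.rp.flow.zero, zero_sub, abs_neg, abs_of_nonneg ht.1] at a2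
  have a3 := H (Ψ t (F' v)).1.1 (by
    linarith [ht.2, Y.q.rp.db.tri o (F' q₀).1.1 (F' v).1.1,
      Y.q.rp.db.tri o (F' v).1.1 (Ψ t (F' v)).1.1])
  rw [hk, F'.apply_symm_apply]
  rwa [show ∀ a b : ℝ, a - (b + k) + k = a - b from fun a b => by ring]

theorem ball (q : QP h Λ Ψ) (o : E n) (R : ℝ) : IsCompact {y | dd h o y ≤ R} :=
  Metric.isCompact_of_isClosed_isBounded
    (isClosed_le (q.rp.db.cont.comp (continuous_const.prodMk continuous_id)) continuous_const)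
    (q.rp.pro o R)

/-- Finitely many types. -/
theorem pig (Y : NY h Λ Ψ) {ι : Type} {G : ι → Met n} {Δ : ι → Type} [∀ i, Group (Δ i)]
    [∀ i, MulAction (Δ i) (E n)] {Θ : ∀ i, ℝ → UT (G i) → UT (G i)} {σ : ∀ i, Δ i ≃* Λ}
    {T : ∀ i, UT (G i) ≃ₜ UT h} (X : ∀ i, NX (G i) h (Θ i) Ψ (σ i) (T i))
    (sy : ∀ i, CJ h (G i) Ψ (Θ i) (σ i).symm (T i).symm) {r : ℝ} (hr : 0 < r) :
    ∃ (τ : Type) (_ : Finite τ) (S : ι → τ), ∀ i j, S i = S j →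
      Wd (G i) (G j) (Θ j) ((T i).trans (T j).symm) r := by
  obtain ⟨η, η0, η1, hη⟩ : ∃ η : ℝ, 0 < η ∧ ∃ ε, 0 < ε ∧ 2 * ε + η ≤ r ∧
      exp (2 * η) = 1 + 2 * (1 - exp (-ε)) ^ 2 := by
    have θ0 : 0 < 1 - exp (-(r / 3)) := sub_pos.2 (exp_lt_one_iff.2 (by linarith))
    have θ1 : 1 - exp (-(r / 3)) ≤ r / 3 := by linarith [add_one_le_exp (-(r / 3))]
    have θ2 : 1 - exp (-(r / 3)) ≤ 1 := by linarith [exp_pos (-(r / 3))]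
    have l0 : 1 < 1 + 2 * (1 - exp (-(r / 3))) ^ 2 := by linarith [pow_pos θ0 2]
    refine ⟨log (1 + 2 * (1 - exp (-(r / 3))) ^ 2) / 2, half_pos (log_pos l0), r / 3,
      by linarith, ?_, by rw [mul_div_cancel₀ _ two_ne_zero, exp_log (by linarith)]⟩
    nlinarith [log_le_sub_one_of_pos (zero_lt_one.trans l0)]
  obtain ⟨hε, hr', hη⟩ := hη
  obtain ⟨K, hK, hΛ⟩ := Y.q.rp.deck.cpt
  have db := Y.q.rp.db
  obtain ⟨R, hR⟩ := hK.bddAbove_image (db.cont.comp (continuous_const.prodMk continuous_id) :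
    Continuous fun y => dd h 0 y).continuousOn
  have cb := H69.cont db Y.bp Y.i2 Y.q.jc
  obtain ⟨t, -, ht⟩ := (uc_cpt Y.q.rp.riem (ball Y.q 0 (R + 3))).elim_nhds_subcover
    (fun w₀ => {w | ∀ z ∈ {y | dd h 0 y ≤ R + 4}, |bus h Ψ w z - bus h Ψ w₀ z| < η / 2})
    fun w₀ _ => (ball Y.q 0 (R + 4)).eventually_forall_of_forall_eventually fun y _ =>
      (((cb.sub (cb.comp (continuous_const.prodMk continuous_snd))).abs.tendsto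
        (w₀, y)).eventually_lt_const (by simpa using η0))
  let ty : ∀ i, E n → Set t := fun i x => {w₀ | ∃ p : UT (G i), p.1.1 = x ∧
    ∀ z ∈ {y | dd h 0 y ≤ R + 4}, |bus h Ψ (T i p) z - bus h Ψ w₀.1 z| < η / 2}
  refine ⟨Set (Set t), inferInstance,
    fun i => ty i '' {x | ∃ p : UT (G i), p.1.1 = x ∧ dd h 0 (T i p).1.1 ≤ R}, fun i j e =>
    wd_of (X i).q.rp.deck (X j).q.rp.inv (X j).ev (cj_trans (X i).cj (sy j)) fun x => ?_⟩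
  dsimp only at e
  obtain ⟨p₀, hp, -⟩ := (X i).q.rp.hr x x
  obtain ⟨l, hl⟩ := hΛ (T i p₀).1.1
  let p₁ := uc_mv (X i).q.rp.deck ((σ i).symm l) p₀
  have k1 : dd h 0 (T i p₁).1.1 ≤ R := by
    rw [(X i).cj.equi ((σ i).symm l) p₀ p₁ rfl, MulEquiv.apply_symm_apply]
    exact hR (mem_image_of_mem _ hl)
  obtain ⟨x', ⟨q₀, rfl, k2⟩, k3⟩ := e ▸ mem_image_of_mem (ty i) (show p₁.1.1 ∈
    {x | ∃ p : UT (G i), p.1.1 = x ∧ dd h 0 (T i p).1.1 ≤ R} from ⟨p₁, rfl, k1⟩)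
  refine ⟨(σ i).symm l, q₀.1.1, fun p hp' => ?_⟩
  have k4 : p.1.1 = p₁.1.1 := hp'.trans (congrArg ((σ i).symm l • ·) hp.symm)
  obtain ⟨w₀, w1, w2⟩ := mem_iUnion₂.1 (ht (show T i p ∈ _ from
    (db.tri 0 (T i p₁).1.1 _).trans (add_le_add k1 (near Y (X i) k4.symm))))
  obtain ⟨q, q1, q2⟩ : (⟨w₀, w1⟩ : t) ∈ ty j q₀.1.1 := k3 ▸ ⟨p, k4, w2⟩
  refine (pair Y (X j) hε hη q1 k2 (w := T i p) fun z hz => ?_).trans hr'
  have b1 := abs_lt.1 (q2 z hz)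
  have b2 := abs_lt.1 (w2 z hz)
  exact abs_le.2 ⟨by linarith [b1.1, b2.2], by linarith [b1.2, b2.1]⟩

end Pool.Agent.MP_3ee8cb_gt.DZF
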